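import Mathlib

/-!
Averages of logarithms from counting estimates.
-/

set_option autoImplicit false

namespace Pool.Agent.U3.NA

open Finset

theorem inv_le_layers (D : ℕ) (hD : 1 ≤ D) (K : ℕ) (hK : 1 ≤ K) :
    (1 : ℝ) / D ≤ 1 / K + ∑ j ∈ Ico 1 K, (if D ≤ j then (1 : ℝ) / (j * (j + 1)) else 0) := by
  have hD' : (1 : ℝ) ≤ D := by exact_mod_cast hD
  by_cases h : K ≤ D
  · have h1 : (1 : ℝ) / D ≤ 1 / K := by
      apply one_div_le_one_div_of_le
      · exact_mod_cast hK
      · exact_mod_cast h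
    have h2 : 0 ≤ ∑ j ∈ Ico 1 K, (if D ≤ j then (1 : ℝ) / (j * (j + 1)) else 0) := by
      apply Finset.sum_nonneg
      intro j _
      split_ifs
      · positivity
      · exact le_rfl
    linarith
  · push Not at h
    obtain ⟨d, rfl⟩ : ∃ d, K = D + d := ⟨K - D, by omega⟩
    have key : ∀ d : ℕ, (1 : ℝ) / D = 1 / ((D + d : ℕ) : ℝ) +
        ∑ j ∈ Ico 1 (D + d), (if D ≤ j then (1 : ℝ) / (j * (j + 1)) else 0) := by
      intro d
      induction d with
      | zero =>
        have : ∑ j ∈ Ico 1 (D + 0), (if D ≤ j then (1 : ℝ) / (j * (j + 1)) else 0) = 0 := by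
          apply Finset.sum_eq_zero
          intro j hj
          rw [Finset.mem_Ico] at hj
          rw [if_neg (by omega)]
        rw [this]
        simp
      | succ d ih =>
        rw [← add_assoc, Finset.sum_Ico_succ_top (by omega), if_pos (by omega), ih]
        push_cast
        have h1 : (0 : ℝ) < (D : ℝ) + d := by positivity
        field_simp
        ring
    exact (key d).le

theorem sum_inv_le (Q : ℕ) (D : ℕ → ℕ) (hD : ∀ A ∈ range Q, 1 ≤ D A) (c : ℝ)
    (h : ∀ j : ℕ, 1 ≤ j → (((range Q).filter fun A => D A ≤ j).card : ℝ) ≤ c * (j * (j + 1)))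
    (K : ℕ) (hK : 1 ≤ K) :
    ∑ A ∈ range Q, (1 : ℝ) / D A ≤ c * (K - 1) + Q / K := by
  calc ∑ A ∈ range Q, (1 : ℝ) / D A
      ≤ ∑ A ∈ range Q, ((1 : ℝ) / K +
          ∑ j ∈ Ico 1 K, (if D A ≤ j then (1 : ℝ) / (j * (j + 1)) else 0)) :=
        Finset.sum_le_sum fun A hA => inv_le_layers (D A) (hD A hA) K hK
    _ = Q / K + ∑ j ∈ Ico 1 K,
          (((range Q).filter fun A => D A ≤ j).card : ℝ) * (1 / (j * (j + 1))) := by
        rw [Finset.sum_add_distrib, Finset.sum_comm]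
        congr 1
        · simp
          ring
        · apply Finset.sum_congr rfl
          intro j _
          rw [← Finset.sum_filter]
          simp
    _ ≤ Q / K + ∑ j ∈ Ico 1 K, c := by
        gcongr with j hj
        rw [Finset.mem_Ico] at hj
        have hj1 : (1 : ℝ) ≤ j := by exact_mod_cast hj.1
        have h1 := h j hj.1
        have h2 : (0 : ℝ) < j * (j + 1) := by positivity
        rw [mul_one_div, div_le_iff₀ h2]
        exact h1
    _ = c * (K - 1) + Q / K := by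
        rw [Finset.sum_const, Nat.card_Ico, nsmul_eq_mul, Nat.cast_sub hK]
        push_cast
        ring

theorem sum_inv_le' (Q : ℕ) (hQ : 1 ≤ Q) (D : ℕ → ℕ) (hD : ∀ A ∈ range Q, 1 ≤ D A) (c : ℝ)
    (hc : 0 < c)
    (h : ∀ j : ℕ, 1 ≤ j → (((range Q).filter fun A => D A ≤ j).card : ℝ) ≤ c * (j * (j + 1))) :
    ∑ A ∈ range Q, (1 : ℝ) / D A ≤ 2 * Real.sqrt (c * Q) := by
  have hQ' : (1 : ℝ) ≤ Q := by exact_mod_cast hQ
  set x : ℝ := Real.sqrt (Q / c) with hx
  have hx0 : 0 < x := Real.sqrt_pos.2 (by positivity)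
  have hK : 1 ≤ ⌈x⌉₊ := Nat.one_le_iff_ne_zero.2 (Nat.ceil_pos.2 hx0).ne'
  have h1 := sum_inv_le Q D hD c h ⌈x⌉₊ hK
  have h2 : (⌈x⌉₊ : ℝ) - 1 ≤ x := by
    have := Nat.ceil_lt_add_one hx0.le
    linarith
  have h3 : x ≤ ⌈x⌉₊ := Nat.le_ceil x
  have h4 : (Q : ℝ) / ⌈x⌉₊ ≤ Q / x := by
    apply div_le_div_of_nonneg_left (by positivity) hx0 h3
  have hs : Real.sqrt (c * Q) = c * x := by
    rw [hx]
    have : c * (Q : ℝ) = c ^ 2 * (Q / c) := by field_simp
    rw [this, Real.sqrt_mul (by positivity), Real.sqrt_sq hc.le]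
  have hs2 : (Q : ℝ) / x = c * x := by
    have hxx : x * x = Q / c := Real.mul_self_sqrt (by positivity)
    rw [div_eq_iff hx0.ne']
    calc (Q : ℝ) = c * (Q / c) := by field_simp
      _ = c * (x * x) := by rw [hxx]
      _ = c * x * x := by ring
  rw [hs]
  have h5 : c * ((⌈x⌉₊ : ℝ) - 1) ≤ c * x := by gcongr
  linarith

/-- Jensen's inequality for the logarithm, in the form we need. -/
theorem sum_log_ge (Q : ℕ) (hQ : 1 ≤ Q) (M : ℕ → ℝ) (hM : ∀ A ∈ range Q, 0 < M A) (c : ℝ)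
    (hc : 0 < c) (h : ∑ A ∈ range Q, 1 / M A ≤ 2 * Real.sqrt (c * Q)) :
    Q * (Real.log Q / 2 - Real.log (2 * Real.sqrt c)) ≤ ∑ A ∈ range Q, Real.log (M A) := by
  have hQ' : (1 : ℝ) ≤ Q := by exact_mod_cast hQ
  set s : ℝ := 2 * Real.sqrt c / Real.sqrt Q with hs
  have hsc : 0 < Real.sqrt c := Real.sqrt_pos.2 hc
  have hsQ : 0 < Real.sqrt Q := Real.sqrt_pos.2 (by linarith)
  have hs0 : 0 < s := by positivity
  have hlogs : Real.log s = Real.log (2 * Real.sqrt c) - Real.log Q / 2 := by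
    rw [hs, Real.log_div (by positivity) (by positivity), Real.log_sqrt (by linarith)]
  have h1 : ∀ A ∈ range Q, - Real.log (M A) - Real.log s ≤ 1 / M A / s - 1 := by
    intro A hA
    have hMA := hM A hA
    have h2 : 0 < 1 / M A / s := by positivity
    have h3 := Real.log_le_sub_one_of_pos h2
    rw [Real.log_div (by positivity) hs0.ne', Real.log_div one_ne_zero hMA.ne', Real.log_one,
      zero_sub] at h3
    exact h3
  have h2 := Finset.sum_le_sum h1
  rw [Finset.sum_sub_distrib, Finset.sum_neg_distrib, Finset.sum_sub_distrib,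
    ← Finset.sum_div] at h2
  simp only [Finset.sum_const, card_range, nsmul_eq_mul, mul_one] at h2
  have h3 : (∑ A ∈ range Q, 1 / M A) / s ≤ Q := by
    rw [div_le_iff₀ hs0]
    refine h.trans (le_of_eq ?_)
    rw [hs, Real.sqrt_mul hc.le]
    have : (Q : ℝ) = Real.sqrt Q * Real.sqrt Q := (Real.mul_self_sqrt (by linarith)).symm
    field_simp
    nlinarith [Real.mul_self_sqrt (show (0:ℝ) ≤ Q by linarith)]
  rw [hlogs] at h2
  have h4 : -(∑ A ∈ range Q, Real.log (M A)) - Q * (Real.log (2 * Real.sqrt c) - Real.log Q / 2)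
      ≤ 0 := by linarith
  linarith [h4]

end Pool.Agent.U3.NA
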