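import Mathlib

/-!
An elementary sieve: among `(|S| + 1) 2 ^ |S|` consecutive integers there is one which avoids a given
residue class modulo each prime of the finite set `S`.
-/

set_option autoImplicit false

namespace Pool.Agent.U3.NA

open Finset

open Classical in
/-- the number of the `i < L` such that `a + i` avoids the class `r p` modulo `p` for all `p ∈ S` -/
noncomputable def cnt (S : Finset ℕ) (r : ℕ → ℤ) (a : ℤ) (L : ℕ) : ℕ :=
  ((range L).filter fun i : ℕ => ∀ p ∈ S, ¬ (p : ℤ) ∣ a + i - r p).card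

theorem cnt_insert (S : Finset ℕ) (q : ℕ) (hq : q.Prime) (hqS : q ∉ S) (hS : ∀ p ∈ S, p.Prime)
    (r : ℕ → ℤ) (a : ℤ) (L : ℕ) :
    ∃ (r' : ℕ → ℤ) (L' : ℕ), cnt S r a L = cnt (insert q S) r a L + cnt S r' 0 L' ∧
      |(L' : ℝ) - L / q| ≤ 1 := by
  classical
  have hq0 : (0 : ℤ) < q := by exact_mod_cast hq.pos
  set i0 : ℕ := ((r q - a) % q).toNat with hi0
  have hi0' : (i0 : ℤ) = (r q - a) % q := by
    rw [hi0, Int.toNat_of_nonneg (Int.emod_nonneg _ hq0.ne')]
  have hi0q : i0 < q := by
    have := Int.emod_lt_of_pos (r q - a) hq0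
    omega
  have hdiv : (q : ℤ) ∣ a + i0 - r q := by
    rw [hi0']
    have h1 : (q : ℤ) ∣ (r q - a) - (r q - a) % q := Int.dvd_self_sub_emod
    have h2 := dvd_neg.2 h1
    rwa [show -((r q - a) - (r q - a) % (q : ℤ)) = a + (r q - a) % (q : ℤ) - r q by ring] at h2
  -- inverses
  have hinv : ∀ p : ℕ, ∃ y : ℤ, p ∈ S → (p : ℤ) ∣ q * y - 1 := by
    intro p
    by_cases hp : p ∈ S
    · have hne : p ≠ q := fun h => hqS (h ▸ hp)
      have hcop : IsCoprime (q : ℤ) (p : ℤ) :=
        Nat.isCoprime_iff_coprime.2 ((Nat.coprime_primes hq (hS p hp)).2 hne.symm)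
      obtain ⟨x, y, hxy⟩ := hcop
      exact ⟨x, fun _ => ⟨-y, by linear_combination hxy⟩⟩
    · exact ⟨0, fun h => absurd h hp⟩
  choose y hy using hinv
  refine ⟨fun p => -(a + i0 - r p) * y p, (L - i0 + q - 1) / q, ?_, ?_⟩
  · have hsplit : ((range L).filter fun i : ℕ => ∀ p ∈ S, ¬ (p : ℤ) ∣ a + i - r p) =
        ((range L).filter fun i : ℕ => ∀ p ∈ insert q S, ¬ (p : ℤ) ∣ a + i - r p) ∪
        ((range L).filter fun i : ℕ => (q : ℤ) ∣ a + i - r q ∧
          ∀ p ∈ S, ¬ (p : ℤ) ∣ a + i - r p) := by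
      ext i
      simp only [mem_filter, mem_range, mem_union, mem_insert, forall_eq_or_imp]
      tauto
    have hdisj : Disjoint
        ((range L).filter fun i : ℕ => ∀ p ∈ insert q S, ¬ (p : ℤ) ∣ a + i - r p)
        ((range L).filter fun i : ℕ => (q : ℤ) ∣ a + i - r q ∧
          ∀ p ∈ S, ¬ (p : ℤ) ∣ a + i - r p) := by
      rw [Finset.disjoint_left]
      intro i h1 h2
      simp only [mem_filter, mem_insert, forall_eq_or_imp] at h1 h2
      exact h1.2.1 h2.2.1
    have hbij : ((range L).filter fun i : ℕ => (q : ℤ) ∣ a + i - r q ∧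
        ∀ p ∈ S, ¬ (p : ℤ) ∣ a + i - r p).card =
        cnt S (fun p => -(a + i0 - r p) * y p) 0 ((L - i0 + q - 1) / q) := by
      unfold cnt
      symm
      have hkey : ∀ (k : ℕ) (p : ℕ), p ∈ S →
          ((p : ℤ) ∣ a + ((i0 + q * k : ℕ) : ℤ) - r p ↔
            (p : ℤ) ∣ 0 + k - -(a + i0 - r p) * y p) := by
        intro k p hp
        have h1 := hy p hp
        constructor
        · intro h
          have h2 := dvd_sub (Dvd.dvd.mul_right h (y p)) (Dvd.dvd.mul_right h1 (k : ℤ))
          have e : (a + ((i0 + q * k : ℕ) : ℤ) - r p) * y p - (q * y p - 1) * (k : ℤ) =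
            0 + k - -(a + i0 - r p) * y p := by push_cast; ring
          rwa [e] at h2
        · intro h
          have h2 := dvd_sub (Dvd.dvd.mul_left h (q : ℤ))
            (Dvd.dvd.mul_right h1 (a + i0 - r p))
          have e : (q : ℤ) * (0 + k - -(a + i0 - r p) * y p) - (q * y p - 1) * (a + i0 - r p) =
            a + ((i0 + q * k : ℕ) : ℤ) - r p := by push_cast; ring
          rwa [e] at h2
      apply Finset.card_bij (fun k _ => i0 + q * k)
      · intro k hk
        simp only [mem_filter, mem_range] at hk ⊢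
        obtain ⟨hk1, hk2⟩ := hk
        have hk3 : q * (k + 1) ≤ L - i0 + q - 1 :=
          (Nat.mul_le_mul_left q hk1).trans (Nat.mul_div_le _ _)
        have hqk : q * (k + 1) = q * k + q := by ring
        have hqpos := hq.pos
        refine ⟨by omega, ?_, fun p hp h => hk2 p hp ((hkey k p hp).1 h)⟩
        have e : a + ((i0 + q * k : ℕ) : ℤ) - r q = (a + i0 - r q) + q * k := by
          push_cast; ring
        rw [e]
        exact dvd_add hdiv (Dvd.intro _ rfl)
      · intro k _ k' _ h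
        have : q * k = q * k' := by omega
        exact Nat.eq_of_mul_eq_mul_left hq.pos this
      · intro i hi
        simp only [mem_filter, mem_range] at hi
        obtain ⟨hi1, hi2, hi3⟩ := hi
        have h1 : (q : ℤ) ∣ (i : ℤ) - i0 := by
          have := dvd_sub hi2 hdiv
          rwa [show a + (i : ℤ) - r q - (a + i0 - r q) = (i : ℤ) - i0 by ring] at this
        obtain ⟨k, hk⟩ := h1
        have hk0 : 0 ≤ k := by
          by_contra hneg
          push Not at hneg
          have : (q : ℤ) * k ≤ q * (-1) := mul_le_mul_of_nonneg_left (by omega) hq0.le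
          omega
        obtain ⟨k, rfl⟩ := Int.eq_ofNat_of_zero_le hk0
        have hi4 : i = i0 + q * k := by
          have : (i : ℤ) = ((i0 + q * k : ℕ) : ℤ) := by push_cast; linarith
          exact_mod_cast this
        refine ⟨k, ?_, hi4.symm⟩
        simp only [mem_filter, mem_range]
        constructor
        · rw [Nat.lt_iff_add_one_le, Nat.le_div_iff_mul_le hq.pos]
          have hqpos := hq.pos
          have e : (k + 1) * q = q * k + q := by ring
          omega
        · intro p hp h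
          apply hi3 p hp
          rw [hi4]
          exact (hkey k p hp).2 h
    have h1 : cnt S r a L = ((range L).filter fun i : ℕ => ∀ p ∈ S, ¬ (p : ℤ) ∣ a + i - r p).card := by
      unfold cnt
      congr
    have h2 : cnt (insert q S) r a L =
        ((range L).filter fun i : ℕ => ∀ p ∈ insert q S, ¬ (p : ℤ) ∣ a + i - r p).card := by
      unfold cnt
      congr
    rw [h1, h2, ← hbij, hsplit, Finset.card_union_of_disjoint hdisj]
  · have hqpos : (0 : ℝ) < q := by exact_mod_cast hq.pos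
    have h1 : q * ((L - i0 + q - 1) / q) ≤ L - i0 + q - 1 := Nat.mul_div_le _ _
    have h2 : L - i0 + q - 1 < q * ((L - i0 + q - 1) / q + 1) := Nat.lt_mul_div_succ _ hq.pos
    set L' := (L - i0 + q - 1) / q
    have hq1 := hq.one_lt
    have h3 : q * L' ≤ L + q := by omega
    have h4 : L ≤ q * L' + q := by
      have : q * (L' + 1) = q * L' + q := by ring
      omega
    have h3' : (q : ℝ) * L' ≤ L + q := by exact_mod_cast h3
    have h4' : (L : ℝ) ≤ q * L' + q := by exact_mod_cast h4
    rw [abs_le]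
    constructor
    · rw [neg_le_sub_iff_le_add, div_le_iff₀ hqpos]
      linarith
    · rw [sub_le_iff_le_add, ← sub_le_iff_le_add', le_div_iff₀ hqpos]
      linarith

theorem cnt_bound (S : Finset ℕ) : (∀ p ∈ S, p.Prime) → ∀ (r : ℕ → ℤ) (a : ℤ) (L : ℕ),
    |(cnt S r a L : ℝ) - L * ∏ p ∈ S, (1 - 1 / (p : ℝ))| ≤ 2 ^ S.card - 1 := by
  classical
  induction S using Finset.induction_on with
  | empty =>
    intro _ r a L
    simp [cnt]
  | insert q S hqS ih =>
    intro hS r a L
    have hq : q.Prime := hS q (Finset.mem_insert_self q S)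
    have hS' : ∀ p ∈ S, p.Prime := fun p hp => hS p (Finset.mem_insert_of_mem hp)
    obtain ⟨r', L', h1, h2⟩ := cnt_insert S q hq hqS hS' r a L
    have h3 := ih hS' r a L
    have h4 := ih hS' r' 0 L'
    rw [Finset.prod_insert hqS, Finset.card_insert_of_notMem hqS]
    set P : ℝ := ∏ p ∈ S, (1 - 1 / (p : ℝ)) with hP
    have hP0 : 0 ≤ P := by
      apply Finset.prod_nonneg
      intro p hp
      have : (1 : ℝ) ≤ p := by exact_mod_cast (hS' p hp).one_lt.le
      have : 1 / (p : ℝ) ≤ 1 := by rw [div_le_one (by linarith)]; exact this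
      linarith
    have hP1 : P ≤ 1 := by
      apply Finset.prod_le_one
      · intro p hp
        have : (1 : ℝ) ≤ p := by exact_mod_cast (hS' p hp).one_lt.le
        have : 1 / (p : ℝ) ≤ 1 := by rw [div_le_one (by linarith)]; exact this
        linarith
      · intro p hp
        have : (0 : ℝ) ≤ 1 / (p : ℝ) := by positivity
        linarith
    have h5 : (cnt S r a L : ℝ) = cnt (insert q S) r a L + cnt S r' 0 L' := by exact_mod_cast h1
    have h6 : (cnt (insert q S) r a L : ℝ) - L * ((1 - 1 / (q : ℝ)) * P) =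
        ((cnt S r a L : ℝ) - L * P) - ((cnt S r' 0 L' : ℝ) - L' * P) -
          (L' - L / q) * P := by
      rw [h5]; ring
    rw [h6]
    have h7 : |((L' : ℝ) - L / q) * P| ≤ 1 := by
      rw [abs_mul, abs_of_nonneg hP0]
      calc |(L' : ℝ) - L / q| * P ≤ 1 * 1 := by
            apply mul_le_mul h2 hP1 hP0 zero_le_one
        _ = 1 := by norm_num
    have h8 := abs_sub (((cnt S r a L : ℝ) - L * P) - ((cnt S r' 0 L' : ℝ) - L' * P))
      (((L' : ℝ) - L / q) * P)
    have h9 := abs_sub ((cnt S r a L : ℝ) - L * P) ((cnt S r' 0 L' : ℝ) - L' * P)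
    rw [pow_succ]
    linarith

theorem prod_ge (s : ℕ) : ∀ S : Finset ℕ, S.card = s → (∀ p ∈ S, 2 ≤ p) →
    1 / ((s : ℝ) + 1) ≤ ∏ p ∈ S, (1 - 1 / (p : ℝ)) := by
  classical
  induction s with
  | zero =>
    intro S hS _
    rw [Finset.card_eq_zero.1 hS]
    simp
  | succ s ih =>
    intro S hS h2
    have hne : S.Nonempty := by
      rw [← Finset.card_pos]; omega
    set m := S.max' hne with hm
    have hmS : m ∈ S := S.max'_mem hne
    have hcard : (S.erase m).card = s := by
      rw [Finset.card_erase_of_mem hmS]; omega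
    have h3 := ih (S.erase m) hcard fun p hp => h2 p (Finset.mem_of_mem_erase hp)
    have hms : s + 2 ≤ m := by
      have hsub : S ⊆ Finset.Icc 2 m := fun p hp =>
        Finset.mem_Icc.2 ⟨h2 p hp, S.le_max' p hp⟩
      have := Finset.card_le_card hsub
      rw [Nat.card_Icc] at this
      omega
    rw [← Finset.mul_prod_erase S _ hmS]
    have hm' : (s : ℝ) + 2 ≤ m := by exact_mod_cast hms
    have hs : (0 : ℝ) ≤ s := Nat.cast_nonneg s
    have h4 : ((s : ℝ) + 1) / (s + 2) ≤ 1 - 1 / m := by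
      have : 1 / (m : ℝ) ≤ 1 / (s + 2) := one_div_le_one_div_of_le (by linarith) hm'
      have e : ((s : ℝ) + 1) / (s + 2) = 1 - 1 / (s + 2) := by field_simp; ring
      rw [e]; linarith
    calc 1 / (((s + 1 : ℕ) : ℝ) + 1) = ((s : ℝ) + 1) / (s + 2) * (1 / (s + 1)) := by
          push_cast; field_simp; ring
      _ ≤ (1 - 1 / m) * ∏ p ∈ S.erase m, (1 - 1 / (p : ℝ)) := by
          apply mul_le_mul h4 h3 (by positivity)
          exact le_trans (by positivity) h4

/-- The sieve. -/
theorem exists_avoid (S : Finset ℕ) (hS : ∀ p ∈ S, p.Prime) (r : ℕ → ℤ) (a : ℤ) :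
    ∃ k : ℤ, a ≤ k ∧ k < a + (S.card + 1) * 2 ^ S.card ∧ ∀ p ∈ S, ¬ (p : ℤ) ∣ k - r p := by
  classical
  set s := S.card with hs
  have h1 := cnt_bound S hS r a ((s + 1) * 2 ^ s)
  have h2 := prod_ge s S hs.symm fun p hp => (hS p hp).two_le
  have h3 : (1 : ℝ) ≤ cnt S r a ((s + 1) * 2 ^ s) := by
    have h4 := (abs_le.1 h1).1
    rw [← hs] at h4
    have h5 : (2 : ℝ) ^ s ≤ (((s + 1) * 2 ^ s : ℕ) : ℝ) * ∏ p ∈ S, (1 - 1 / (p : ℝ)) := by
      calc (2 : ℝ) ^ s = (((s + 1) * 2 ^ s : ℕ) : ℝ) * (1 / ((s : ℝ) + 1)) := by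
            push_cast; field_simp
        _ ≤ _ := by gcongr
    linarith
  have h4 : 0 < cnt S r a ((s + 1) * 2 ^ s) := by
    have : (0 : ℝ) < cnt S r a ((s + 1) * 2 ^ s) := by linarith
    exact_mod_cast this
  unfold cnt at h4
  rw [Finset.card_pos] at h4
  obtain ⟨i, hi⟩ := h4
  rw [mem_filter, mem_range] at hi
  refine ⟨a + i, by omega, ?_, hi.2⟩
  have : (i : ℤ) < ((s : ℤ) + 1) * 2 ^ s := by exact_mod_cast hi.1
  linarith

end Pool.Agent.U3.NA
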