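import Pool.Agent.U3.NA.Defs
import Pool.Agent.U3.NA.Sieve

/-!
Counting residues with small approximations; an upper bound for the complexity in terms of a
shortest vector.
-/

set_option autoImplicit false

namespace Pool.Agent.U3.NA

open Finset
open Pool.Agent.W907.NAdic

/-- `d` is the norm of a shortest vector (only the properties we need) -/
def Sh (q : ℕ) (V : ℤ) (d : ℕ) : Prop :=
  ∃ u g t : ℤ, ¬ (u = 0 ∧ g = 0) ∧ g * V - u = q * t ∧ nm u g = d ∧ d ^ 2 ≤ q ∧ IsCoprime g t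

theorem exists_Sh (q : ℕ) (hq : 1 ≤ q) (V : ℤ) : ∃ d, Sh q V d := by
  obtain ⟨u, g, t, h1, h2, h3, h4⟩ := exists_short q hq V
  exact ⟨_, u, g, t, h1, h2, rfl, h3, h4⟩

theorem Sh.pos {q : ℕ} {V : ℤ} {d : ℕ} (h : Sh q V d) : 1 ≤ d := by
  obtain ⟨u, g, t, h1, -, h3, -, -⟩ := h
  rw [← h3]
  exact nm_pos h1

theorem card_mc_le {N : ℕ} (hN : 2 ≤ N) (n j : ℕ) :
    ((range (N ^ n)).filter fun A : ℕ => mc N n (A : ℤ) ≤ j).card ≤ j * (2 * j + 1) := by
  classical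
  have hcard : (Icc (1 : ℤ) j ×ˢ Icc (-(j : ℤ)) j).card = j * (2 * j + 1) := by
    rw [Finset.card_product, Int.card_Icc, Int.card_Icc]
    congr 1
    · omega
    · omega
  rw [← hcard]
  apply Finset.card_le_card_of_forall_subsingleton
    (fun (A : ℕ) (x : ℤ × ℤ) => Cd N n (A : ℤ) x.2 x.1)
  · intro A hA
    rw [mem_filter] at hA
    obtain ⟨u, g, h1, h2⟩ := mc_mem N n (A : ℤ)
    have h3 : nm u g ≤ j := by rw [← h2]; exact hA.2
    have hg := h1.ne hN
    have hu' : u.natAbs ≤ j := (le_max_left _ _).trans h3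
    have hg' : g.natAbs ≤ j := (le_max_right _ _).trans h3
    rcases lt_or_gt_of_ne hg with hneg | hpos
    · refine ⟨(-g, -u), ?_, ?_, ?_⟩
      · simp only [mem_product, mem_Icc]
        omega
      · exact h1.1.neg_left
      · have := dvd_neg.2 h1.2
        simp only
        rwa [show -(g * (A : ℤ) - u) = -g * (A : ℤ) - -u by ring] at this
    · refine ⟨(g, u), ?_, h1⟩
      simp only [mem_product, mem_Icc]
      omega
  · rintro ⟨g, u⟩ _ A hA B hB
    obtain ⟨hA0, hA2⟩ := hA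
    obtain ⟨hB0, hB2⟩ := hB
    rw [mem_filter, mem_range] at hA0 hB0
    have hA1 := hA0.1
    have hB1 := hB0.1
    simp only at hA2 hB2
    have h1 : (N : ℤ) ^ n ∣ g * ((A : ℤ) - B) := by
      have := dvd_sub hA2.2 hB2.2
      rwa [show g * (A : ℤ) - u - (g * (B : ℤ) - u) = g * ((A : ℤ) - B) by ring] at this
    have h2 : (N : ℤ) ^ n ∣ (A : ℤ) - B := (hA2.1.symm.pow_left).dvd_of_dvd_mul_left h1
    have h3 : ((N ^ n : ℕ) : ℤ) ∣ (A : ℤ) - B := by push_cast; exact h2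
    have h4 := Int.eq_zero_of_abs_lt_dvd h3 (by
      rw [abs_lt]; constructor <;> omega)
    omega

theorem card_Bg (Q : ℕ) (hQ : 1 ≤ Q) (j g : ℕ) (hg : 1 ≤ g) (S : Finset ℕ)
    (hS : ∀ A ∈ S, A < Q ∧ ∃ u t : ℤ, u.natAbs ≤ j ∧ (g : ℤ) * A - u = Q * t) :
    S.card ≤ 2 * j + g := by
  classical
  set d := Nat.gcd g Q with hd
  have hd0 : 0 < d := Nat.gcd_pos_of_pos_left _ hg
  obtain ⟨g', hg'⟩ : d ∣ g := Nat.gcd_dvd_left _ _
  obtain ⟨Q', hQ'⟩ : d ∣ Q := Nat.gcd_dvd_right _ _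
  have hcop : Nat.Coprime g' Q' := by
    have h1 : Nat.gcd (d * g') (d * Q') = d * Nat.gcd g' Q' := Nat.gcd_mul_left _ _ _
    rw [← hg', ← hQ', ← hd] at h1
    have h2 : d * Nat.gcd g' Q' = d * 1 := by omega
    exact Nat.eq_of_mul_eq_mul_left hd0 h2
  have hQ'0 : 0 < Q' := by
    rcases Nat.eq_zero_or_pos Q' with h | h
    · rw [h] at hQ'; omega
    · exact h
  have hcard : (Icc (-((j / d : ℕ) : ℤ)) ((j / d : ℕ) : ℤ) ×ˢ range d).card =
      (2 * (j / d) + 1) * d := by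
    rw [Finset.card_product, Int.card_Icc, card_range]
    congr 1
    omega
  have hle : (2 * (j / d) + 1) * d ≤ 2 * j + g := by
    have h1 : j / d * d ≤ j := Nat.div_mul_le_self _ _
    have h2 : d ≤ g := Nat.le_of_dvd hg ⟨g', hg'⟩
    have e : (2 * (j / d) + 1) * d = 2 * (j / d * d) + d := by ring
    omega
  refine le_trans ?_ hle
  rw [← hcard]
  apply Finset.card_le_card_of_forall_subsingleton
    (fun (A : ℕ) (x : ℤ × ℕ) => (∃ t : ℤ, (g : ℤ) * A - d * x.1 = Q * t) ∧ A / Q' = x.2)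
  · intro A hA
    obtain ⟨hAQ, u, t, hu, ht⟩ := hS A hA
    obtain ⟨x, hx⟩ : (d : ℤ) ∣ u := by
      have e : u = g * A - Q * t := by linarith
      rw [e]
      apply dvd_sub
      · exact Dvd.dvd.mul_right (Int.natCast_dvd_natCast.2 ⟨g', hg'⟩) _
      · exact Dvd.dvd.mul_right (Int.natCast_dvd_natCast.2 ⟨Q', hQ'⟩) _
    refine ⟨(x, A / Q'), ?_, ⟨t, by rw [← hx]; exact ht⟩, rfl⟩
    simp only [mem_product, mem_Icc, mem_range]
    have hxd : x.natAbs ≤ j / d := by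
      rw [Nat.le_div_iff_mul_le hd0]
      rw [hx, Int.natAbs_mul, Int.natAbs_natCast, mul_comm] at hu
      exact hu
    refine ⟨by omega, ?_⟩
    rw [Nat.div_lt_iff_lt_mul hQ'0]
    rw [← hQ']
    exact hAQ
  · rintro ⟨x, b⟩ _ A hA B hB
    obtain ⟨-, ⟨t, ht⟩, hAb⟩ := hA
    obtain ⟨-, ⟨t', ht'⟩, hBb⟩ := hB
    simp only at ht ht' hAb hBb
    have h1 : (g : ℤ) * ((A : ℤ) - B) = Q * (t - t') := by linear_combination ht - ht'
    have h2 : (g' : ℤ) * ((A : ℤ) - B) = Q' * (t - t') := by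
      have hd1 : (d : ℤ) ≠ 0 := by exact_mod_cast hd0.ne'
      apply mul_left_cancel₀ hd1
      have e1 : (g : ℤ) = d * g' := by exact_mod_cast hg'
      have e2 : (Q : ℤ) = d * Q' := by exact_mod_cast hQ'
      rw [e1, e2] at h1
      linear_combination h1
    have h3 : (Q' : ℤ) ∣ (A : ℤ) - B := by
      have : (Q' : ℤ) ∣ (g' : ℤ) * ((A : ℤ) - B) := ⟨_, h2⟩
      exact (Nat.isCoprime_iff_coprime.2 hcop.symm).dvd_of_dvd_mul_left this
    have h4 : |(A : ℤ) - B| < Q' := by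
      have hA1 := Nat.div_add_mod A Q'
      have hB1 := Nat.div_add_mod B Q'
      have hA2 := Nat.mod_lt A hQ'0
      have hB2 := Nat.mod_lt B hQ'0
      rw [hAb] at hA1
      rw [hBb] at hB1
      rw [abs_lt]
      constructor <;> omega
    have h5 := Int.eq_zero_of_abs_lt_dvd h3 h4
    omega

theorem card_Sh_le (Q : ℕ) (hQ : 2 ≤ Q) (D : ℕ → ℕ) (hD : ∀ A : ℕ, Sh Q (A : ℤ) (D A)) (j : ℕ) :
    (((range Q).filter fun A : ℕ => D A ≤ j).card : ℝ) ≤ 5 / 2 * (j * (j + 1)) := by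
  classical
  set B : ℕ → Finset ℕ := fun g => (range Q).filter fun A : ℕ =>
    ∃ u t : ℤ, u.natAbs ≤ j ∧ (g : ℤ) * A - u = Q * t with hB
  have hsub : ((range Q).filter fun A : ℕ => D A ≤ j) ⊆ (Icc 1 j).biUnion B := by
    intro A hA
    rw [mem_filter] at hA
    obtain ⟨u, g, t, h1, h2, h3, h4, -⟩ := hD A
    have h5 : nm u g ≤ j := by rw [h3]; exact hA.2
    have hu' : u.natAbs ≤ j := (le_max_left _ _).trans h5
    have hg' : g.natAbs ≤ j := (le_max_right _ _).trans h5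
    have hg0 : g ≠ 0 := by
      rintro rfl
      have hu0 : u ≠ 0 := fun h => h1 ⟨h, rfl⟩
      have h6 : (Q : ℤ) ∣ u := ⟨-t, by linarith⟩
      have h7 : Q ≤ u.natAbs := Nat.le_of_dvd (Int.natAbs_pos.2 hu0) (by
        have := Int.natAbs_dvd_natAbs.2 h6
        rwa [Int.natAbs_natCast] at this)
      have h8 : Q ≤ D A := by rw [← h3]; exact h7.trans (le_max_left _ _)
      nlinarith
    rw [mem_biUnion]
    rcases lt_or_gt_of_ne hg0 with hneg | hpos
    · refine ⟨g.natAbs, ?_, ?_⟩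
      · rw [mem_Icc]; omega
      · rw [hB, mem_filter]
        refine ⟨hA.1, -u, -t, by omega, ?_⟩
        have : ((g.natAbs : ℕ) : ℤ) = -g := by omega
        rw [this]; linear_combination -h2
    · refine ⟨g.natAbs, ?_, ?_⟩
      · rw [mem_Icc]; omega
      · rw [hB, mem_filter]
        refine ⟨hA.1, u, t, by omega, ?_⟩
        have : ((g.natAbs : ℕ) : ℤ) = g := by omega
        rw [this]; linear_combination h2
  have h1 := (Finset.card_le_card hsub).trans Finset.card_biUnion_le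
  have h2 : ∑ g ∈ Icc 1 j, (B g).card ≤ ∑ g ∈ Icc 1 j, (2 * j + g) := by
    apply Finset.sum_le_sum
    intro g hg
    rw [mem_Icc] at hg
    apply card_Bg Q (by omega) j g hg.1
    intro A hA
    rw [hB, mem_filter, mem_range] at hA
    exact hA
  have h3 : 2 * ∑ g ∈ Icc 1 j, (2 * j + g) ≤ 5 * (j * (j + 1)) := by
    have h4 : ∀ m : ℕ, 2 * ∑ g ∈ Icc 1 m, (2 * j + g) = 4 * j * m + m * (m + 1) := by
      intro m
      induction m with
      | zero => simp
      | succ m ih =>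
        rw [Finset.sum_Icc_succ_top (by omega), mul_add, ih]
        ring
    rw [h4]
    nlinarith
  have h4 : 2 * ((range Q).filter fun A : ℕ => D A ≤ j).card ≤ 5 * (j * (j + 1)) := by
    have := Nat.mul_le_mul_left 2 (h1.trans h2)
    omega
  have h5 : (2 : ℝ) * ((range Q).filter fun A : ℕ => D A ≤ j).card ≤ 5 * (j * (j + 1)) := by
    exact_mod_cast h4
  linarith

/-- choice of a translate in a box -/
theorem exists_translate_pos (S : Finset ℕ) (hS : ∀ p ∈ S, p.Prime) (r : ℕ → ℤ) (J : ℕ)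
    (hJ : (S.card + 1) * 2 ^ S.card ≤ J) (c D : ℤ) (hpos : 0 < D) :
    ∃ k : ℤ, (∀ p ∈ S, ¬ (p : ℤ) ∣ k - r p) ∧ 2 * |c + k * D| ≤ D * J := by
  obtain ⟨k, h1, h2, h3⟩ := exists_avoid S hS r (-((D * J + 2 * c) / (2 * D)))
  set a := (D * J + 2 * c) / (2 * D) with ha
  have hJ' : ((S.card : ℤ) + 1) * 2 ^ S.card ≤ J := by exact_mod_cast hJ
  refine ⟨k, h3, ?_⟩
  have hk1 : -a ≤ k := h1
  have hk2 : k ≤ -a + J - 1 := by linarith
  have hp : 0 < 2 * D := by linarith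
  have hm1 : 2 * D * a ≤ D * J + 2 * c := Int.mul_ediv_self_le hp.ne'
  have hm2 : D * J + 2 * c < 2 * D * (a + 1) := by
    have := Int.lt_mul_ediv_self_add hp (x := D * J + 2 * c)
    linarith
  have h5 : D * (-a) ≤ D * k := mul_le_mul_of_nonneg_left hk1 hpos.le
  have h6 : D * k ≤ D * (-a + J - 1) := mul_le_mul_of_nonneg_left hk2 hpos.le
  rcases abs_cases (c + k * D) with ⟨h, _⟩ | ⟨h, _⟩ <;> rw [h] <;> nlinarith

theorem exists_translate (S : Finset ℕ) (hS : ∀ p ∈ S, p.Prime) (r : ℕ → ℤ) (J : ℕ)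
    (hJ : (S.card + 1) * 2 ^ S.card ≤ J) (c D : ℤ) (hD : D ≠ 0) :
    ∃ k : ℤ, (∀ p ∈ S, ¬ (p : ℤ) ∣ k - r p) ∧ 2 * |c + k * D| ≤ |D| * J := by
  rcases lt_or_gt_of_ne hD with hneg | hpos
  · obtain ⟨k, h1, h2⟩ := exists_translate_pos S hS (fun p => - r p) J hJ c (-D) (by linarith)
    refine ⟨-k, fun p hp h => h1 p hp ?_, ?_⟩
    · have := dvd_neg.2 h
      rwa [show -(-k - r p) = k - -r p by ring] at this
    · rw [abs_of_neg hneg, show c + -k * D = c + k * -D by ring]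
      exact h2
  · obtain ⟨k, h1, h2⟩ := exists_translate_pos S hS r J hJ c D hpos
    exact ⟨k, h1, by rw [abs_of_pos hpos]; exact h2⟩

end Pool.Agent.U3.NA
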