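import Pool.Agent.W907.NAdic.Lat

/-!
The average `N`-adic complexity of the words of length `n`: definitions, and reduction to the
residues modulo `N ^ n`.
-/

set_option autoImplicit false

namespace Pool.Agent.U3.NA

open Finset
open Pool.Agent.Results.MP_8b2777_lc.NonPrimePowerDisproof
open Pool.Agent.W907.NAdic

/-- The `N`-adic complexity of the finite sequence `w = (w_0, ..., w_(n-1))`: the minimum (infimum)
of `log_N max(|u|, |g|)` over all eventually periodic infinite sequences `b` with `b_i = w_i` for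
`i < n`, where `u / g` is the `N`-adic number of `b` in lowest terms. -/
noncomputable def wordComplexity (N n : ℕ) (w : Fin n → Fin N) : ℝ :=
  sInf {x : ℝ | ∃ (b : ℕ → Fin N) (u g : ℤ), EventuallyPeriodic b ∧ (∀ i : Fin n, b i = w i) ∧
    IsFraction N b u g ∧ x = Real.logb N (max |u| |g| : ℤ)}

/-- The average of the `N`-adic complexity over all the `N ^ n` words of length `n`. -/
noncomputable def averageComplexity (N n : ℕ) : ℝ :=
  (∑ w : Fin n → Fin N, wordComplexity N n w) / (N : ℝ) ^ n

/-- extension of a word to an infinite sequence -/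
def ext {N n : ℕ} (hN : 0 < N) (w : Fin n → Fin N) : ℕ → Fin N :=
  fun i => if h : i < n then w ⟨i, h⟩ else ⟨0, hN⟩

theorem wordComplexity_eq {N : ℕ} (hN : 2 ≤ N) (n : ℕ) (w : Fin n → Fin N) :
    wordComplexity N n w =
      Real.logb N (mc N n ((∑ i : Fin n, (w i : ℕ) * N ^ (i : ℕ) : ℕ) : ℤ)) := by
  have hN0 : 0 < N := by omega
  have h1 := prefixComplexity_eq_mc hN (ext hN0 w) n
  have h2 : wordComplexity N n w = prefixComplexity N (ext hN0 w) n := by
    unfold wordComplexity prefixComplexity
    congr 1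
    ext x
    constructor
    · rintro ⟨b, u, g, hb, hw, hf, hx⟩
      refine ⟨b, u, g, hb, fun i hi => ?_, hf, hx⟩
      rw [ext, dif_pos hi]
      exact hw ⟨i, hi⟩
    · rintro ⟨b, u, g, hb, hw, hf, hx⟩
      refine ⟨b, u, g, hb, fun i => ?_, hf, hx⟩
      have := hw i i.2
      rw [ext, dif_pos i.2] at this
      exact this
  have h3 : prefixValue N (ext hN0 w) n = ((∑ i : Fin n, (w i : ℕ) * N ^ (i : ℕ) : ℕ) : ℤ) := by
    unfold prefixValue
    rw [Finset.sum_range]
    push_cast
    apply Finset.sum_congr rfl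
    intro i _
    have : ext hN0 w i = w i := by
      rw [ext, dif_pos i.2]
    rw [this]
  rw [h2, h1, h3]

theorem averageComplexity_eq {N : ℕ} (hN : 2 ≤ N) (n : ℕ) :
    averageComplexity N n =
      (∑ A ∈ range (N ^ n), Real.logb N (mc N n (A : ℤ))) / ((N ^ n : ℕ) : ℝ) := by
  unfold averageComplexity
  rw [Nat.cast_pow]
  congr 1
  rw [Finset.sum_range]
  rw [← Equiv.sum_comp (finFunctionFinEquiv (m := N) (n := n))]
  apply Finset.sum_congr rfl
  intro w _
  rw [wordComplexity_eq hN]
  congr 3

end Pool.Agent.U3.NA
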