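import Pool.Agent.U3.NA.Upper
import Pool.Agent.U3.NA.Avg

/-!
Both bounds for the average complexity.
-/

set_option autoImplicit false

namespace Pool.Agent.U3.NA

open Finset
open Pool.Agent.W907.NAdic

theorem lower_bound {N : ℕ} (hN : 2 ≤ N) (n : ℕ) :
    (n : ℝ) / 2 - Real.logb N (2 * Real.sqrt 2) ≤ averageComplexity N n := by
  have hN1 : (1 : ℝ) < N := by exact_mod_cast (by omega : 1 < N)
  have hlogN : 0 < Real.log N := Real.log_pos hN1
  have hQ : 1 ≤ N ^ n := Nat.one_le_pow _ _ (by omega)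
  have hQ' : (0 : ℝ) < ((N ^ n : ℕ) : ℝ) := by exact_mod_cast hQ
  rw [averageComplexity_eq hN, le_div_iff₀ hQ']
  have h1 : ∑ A ∈ range (N ^ n), (1 : ℝ) / mc N n (A : ℤ) ≤ 2 * Real.sqrt (2 * (N ^ n : ℕ)) := by
    apply sum_inv_le' (N ^ n) hQ (fun A => mc N n (A : ℤ)) (fun A _ => mc_pos hN n _) 2 two_pos
    intro j hj
    have h2 := card_mc_le hN n j
    have h3 : (((range (N ^ n)).filter fun A : ℕ => mc N n (A : ℤ) ≤ j).card : ℝ) ≤
        (j * (2 * j + 1) : ℕ) := by exact_mod_cast h2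
    refine h3.trans ?_
    push_cast
    have : (0 : ℝ) ≤ j := Nat.cast_nonneg j
    nlinarith
  have h2 := sum_log_ge (N ^ n) hQ (fun A => (mc N n (A : ℤ) : ℝ)) (fun A _ => by
    have := mc_pos hN n (A : ℤ)
    exact_mod_cast this) 2 two_pos h1
  have h3 : Real.log ((N ^ n : ℕ) : ℝ) = n * Real.log N := by
    push_cast
    rw [Real.log_pow]
  rw [h3] at h2
  have h4 : ∑ A ∈ range (N ^ n), Real.logb N (mc N n (A : ℤ)) =
      (∑ A ∈ range (N ^ n), Real.log (mc N n (A : ℤ))) / Real.log N := by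
    rw [Finset.sum_div]
    rfl
  rw [h4, le_div_iff₀ hlogN, Real.logb]
  calc ((n : ℝ) / 2 - Real.log (2 * Real.sqrt 2) / Real.log N) * (N ^ n : ℕ) * Real.log N
      = (N ^ n : ℕ) * (n * Real.log N / 2 - Real.log (2 * Real.sqrt 2)) := by
        field_simp
    _ ≤ _ := h2

theorem upper_bound {N : ℕ} (hN : 2 ≤ N) {n : ℕ} (hn : 1 ≤ n) :
    averageComplexity N n ≤ (n : ℝ) / 2 + Real.logb N (Real.sqrt 10 *
      (1 + N.primeFactors.card * 2 ^ (N.primeFactors.card - 1) / 2)) := by
  have hN1 : (1 : ℝ) < N := by exact_mod_cast (by omega : 1 < N)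
  have hlogN : 0 < Real.log N := Real.log_pos hN1
  have hQ2 : 2 ≤ N ^ n := by
    calc 2 ≤ N := hN
      _ = N ^ 1 := (pow_one N).symm
      _ ≤ N ^ n := Nat.pow_le_pow_right (by omega) hn
  have hQ : 1 ≤ N ^ n := by omega
  have hQ' : (0 : ℝ) < ((N ^ n : ℕ) : ℝ) := by exact_mod_cast hQ
  choose D hD using fun A : ℕ => exists_Sh (N ^ n) hQ (A : ℤ)
  have h1 : ∑ A ∈ range (N ^ n), (1 : ℝ) / D A ≤ 2 * Real.sqrt (5 / 2 * (N ^ n : ℕ)) :=
    sum_inv_le' (N ^ n) hQ D (fun A _ => (hD A).pos) (5 / 2) (by norm_num)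
      (fun j _ => card_Sh_le (N ^ n) hQ2 D hD j)
  have h2 := sum_log_ge (N ^ n) hQ (fun A => (D A : ℝ)) (fun A _ => by
    have := (hD A).pos
    exact_mod_cast this) (5 / 2) (by norm_num) h1
  set κ : ℝ := 1 + N.primeFactors.card * 2 ^ (N.primeFactors.card - 1) / 2 with hκ
  have hκ0 : 0 < κ := by positivity
  have h3 : ∀ A ∈ range (N ^ n), Real.log (mc N n (A : ℤ)) ≤
      Real.log κ + Real.log (N ^ n : ℕ) - Real.log (D A) := by
    intro A _
    have h4 := mc_mul_le hN n (A : ℤ) (D A) (hD A)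
    have h5 : (2 : ℝ) * (mc N n (A : ℤ) * D A) ≤
        (2 + N.primeFactors.card * 2 ^ (N.primeFactors.card - 1)) * (N ^ n : ℕ) := by
      exact_mod_cast h4
    have hm : (0 : ℝ) < mc N n (A : ℤ) := by
      have := mc_pos hN n (A : ℤ)
      exact_mod_cast this
    have hd : (0 : ℝ) < D A := by
      have := (hD A).pos
      exact_mod_cast this
    rw [← Real.log_mul hκ0.ne' hQ'.ne', ← Real.log_div (by positivity) hd.ne']
    apply Real.log_le_log hm
    rw [le_div_iff₀ hd]
    have e : (2 + N.primeFactors.card * 2 ^ (N.primeFactors.card - 1) : ℝ) = 2 * κ := by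
      rw [hκ]; ring
    rw [e] at h5
    linarith
  have h4 := Finset.sum_le_sum h3
  rw [Finset.sum_sub_distrib, Finset.sum_const, card_range, nsmul_eq_mul] at h4
  have h5 : Real.log ((N ^ n : ℕ) : ℝ) = n * Real.log N := by
    push_cast
    rw [Real.log_pow]
  rw [h5] at h2 h4
  have hs : 2 * Real.sqrt (5 / 2) = Real.sqrt 10 := by
    have : (10 : ℝ) = 2 ^ 2 * (5 / 2) := by norm_num
    rw [this, Real.sqrt_mul (by positivity), Real.sqrt_sq (by norm_num)]
  rw [hs] at h2
  have h10 : 0 < Real.sqrt 10 := Real.sqrt_pos.2 (by norm_num)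
  rw [averageComplexity_eq hN, div_le_iff₀ hQ']
  have h6 : ∑ A ∈ range (N ^ n), Real.logb N (mc N n (A : ℤ)) =
      (∑ A ∈ range (N ^ n), Real.log (mc N n (A : ℤ))) / Real.log N := by
    rw [Finset.sum_div]
    rfl
  rw [h6, div_le_iff₀ hlogN, Real.logb, Real.log_mul h10.ne' hκ0.ne']
  calc ∑ A ∈ range (N ^ n), Real.log (mc N n (A : ℤ))
      ≤ (N ^ n : ℕ) * (Real.log κ + n * Real.log N) -
          (N ^ n : ℕ) * (n * Real.log N / 2 - Real.log (Real.sqrt 10)) := by linarith
    _ = ((n : ℝ) / 2 + (Real.log (Real.sqrt 10) + Real.log κ) / Real.log N) * (N ^ n : ℕ) *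
          Real.log N := by
        field_simp
        ring

/-- the number of prime factors is small -/
theorem card_primeFactors_bound {N : ℕ} (hN : 1 ≤ N) (B : ℕ) (hB : 1 ≤ B) :
    (N.primeFactors.card : ℝ) * Real.log B ≤ Real.log N + B * Real.log B := by
  classical
  set S := N.primeFactors.filter fun p => B ≤ p with hS
  have h1 : N.primeFactors.card ≤ S.card + B := by
    have h2 : N.primeFactors ⊆ S ∪ range B := by
      intro p hp
      rw [mem_union, hS, mem_filter, mem_range]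
      by_cases h : B ≤ p
      · exact Or.inl ⟨hp, h⟩
      · exact Or.inr (by omega)
    have h3 := (Finset.card_le_card h2).trans (Finset.card_union_le _ _)
    rwa [card_range] at h3
  have h2 : B ^ S.card ≤ N := by
    calc B ^ S.card = ∏ _p ∈ S, B := by rw [Finset.prod_const]
      _ ≤ ∏ p ∈ S, p := Finset.prod_le_prod' fun p hp => (mem_filter.1 hp).2
      _ ≤ N := by
        apply Nat.le_of_dvd (by omega)
        refine dvd_trans (Finset.prod_dvd_prod_of_subset _ _ (fun p : ℕ => p)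
          (Finset.filter_subset _ _)) (Nat.prod_primeFactors_dvd N)
  have hB' : (1 : ℝ) ≤ B := by exact_mod_cast hB
  have hlogB : 0 ≤ Real.log B := Real.log_nonneg hB'
  have h3 : (S.card : ℝ) * Real.log B ≤ Real.log N := by
    rw [← Real.log_pow]
    apply Real.log_le_log (by positivity)
    exact_mod_cast h2
  have h4 : (N.primeFactors.card : ℝ) ≤ S.card + B := by exact_mod_cast h1
  nlinarith

/-- the bounds are close to `n / 2` for large `N` -/
theorem tendsto_bounds (ε : ℝ) (hε : 0 < ε) : ∃ N₀ : ℕ, ∀ N : ℕ, N₀ ≤ N →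
    Real.logb N (2 * Real.sqrt 2) ≤ ε ∧
    Real.logb N (Real.sqrt 10 *
      (1 + N.primeFactors.card * 2 ^ (N.primeFactors.card - 1) / 2)) ≤ ε := by
  -- choose `B` with `4 log 2 / log B ≤ ε`
  obtain ⟨B, hB⟩ := exists_nat_gt (Real.exp (6 * Real.log 4 / ε) + 3)
  have hB3 : (3 : ℝ) < B := by
    have := Real.exp_pos (6 * Real.log 4 / ε)
    linarith
  have hBn : 3 < B := by exact_mod_cast hB3
  have hlogB : 6 * Real.log 4 / ε ≤ Real.log B := by
    rw [Real.le_log_iff_exp_le (by linarith)]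
    linarith
  have hlog4 : 0 < Real.log 4 := Real.log_pos (by norm_num)
  have hlogB0 : 0 < Real.log B := Real.log_pos (by linarith)
  -- choose `N₀`
  obtain ⟨N₀, hN₀⟩ := exists_nat_gt (Real.exp ((2 * Real.log 4 + 3 * (B * Real.log 4)) * (2 / ε)) + 3)
  refine ⟨N₀, fun N hN => ?_⟩
  have hN' : Real.exp ((2 * Real.log 4 + 3 * (B * Real.log 4)) * (2 / ε)) + 3 < N := by
    have : (N₀ : ℝ) ≤ N := by exact_mod_cast hN
    linarith
  have hN3 : (3 : ℝ) < N := by
    have := Real.exp_pos ((2 * Real.log 4 + 3 * (B * Real.log 4)) * (2 / ε))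
    linarith
  have hlogN : (2 * Real.log 4 + 3 * (B * Real.log 4)) * (2 / ε) ≤ Real.log N := by
    rw [Real.le_log_iff_exp_le (by linarith)]
    linarith
  have hlogN0 : 0 < Real.log N := Real.log_pos (by linarith)
  have hlogN' : 2 * Real.log 4 + 3 * (B * Real.log 4) ≤ ε / 2 * Real.log N := by
    rw [← mul_one (2 * Real.log 4 + 3 * (B * Real.log 4))]
    calc (2 * Real.log 4 + 3 * (B * Real.log 4)) * 1 =
        ε / 2 * ((2 * Real.log 4 + 3 * (B * Real.log 4)) * (2 / ε)) := by field_simp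
      _ ≤ ε / 2 * Real.log N := by gcongr
  have hBlog : 0 ≤ 3 * ((B : ℝ) * Real.log 4) := by positivity
  constructor
  · rw [Real.logb, div_le_iff₀ hlogN0]
    have h1 : Real.log (2 * Real.sqrt 2) ≤ Real.log 4 := by
      apply Real.log_le_log (by positivity)
      have : Real.sqrt 2 ≤ 2 := by
        rw [Real.sqrt_le_left (by norm_num)]; norm_num
      linarith
    nlinarith
  · rw [Real.logb, div_le_iff₀ hlogN0]
    set w := N.primeFactors.card with hw
    have hNn : 1 ≤ N := by
      have : (1 : ℝ) ≤ N := by linarith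
      exact_mod_cast this
    have h1 : Real.log (Real.sqrt 10 * (1 + w * 2 ^ (w - 1) / 2)) ≤
        (2 + 2 * w : ℝ) * Real.log 4 := by
      have h2 : Real.sqrt 10 ≤ 4 := by
        rw [Real.sqrt_le_left (by norm_num)]; norm_num
      have h3 : (1 + (w : ℝ) * 2 ^ (w - 1) / 2) ≤ 4 * 4 ^ w := by
        have h4 : (w : ℝ) ≤ 2 ^ w := by exact_mod_cast (Nat.lt_two_pow_self (n := w)).le
        have h5 : (2 : ℝ) ^ (w - 1) ≤ 2 ^ w :=
          pow_le_pow_right₀ (by norm_num) (Nat.sub_le _ _)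
        have h6 : (1 : ℝ) ≤ 4 ^ w := one_le_pow₀ (by norm_num)
        have h7 : (2 : ℝ) ^ w * 2 ^ w = 4 ^ w := by
          rw [← mul_pow]; norm_num
        have h8 : (w : ℝ) * 2 ^ (w - 1) ≤ 2 ^ w * 2 ^ w :=
          mul_le_mul h4 h5 (by positivity) (by positivity)
        linarith
      calc Real.log (Real.sqrt 10 * (1 + w * 2 ^ (w - 1) / 2))
          ≤ Real.log (4 * (4 * 4 ^ w)) := by
            apply Real.log_le_log (by positivity)
            gcongr
        _ = (2 + w : ℝ) * Real.log 4 := by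
            have : (4 : ℝ) * (4 * 4 ^ w) = 4 ^ (2 + w) := by ring
            rw [this, Real.log_pow]
            push_cast
            ring
        _ ≤ (2 + 2 * w : ℝ) * Real.log 4 := by
            have : (0 : ℝ) ≤ w := Nat.cast_nonneg w
            nlinarith
    have h2 := card_primeFactors_bound hNn B (by omega)
    have h3 : (w : ℝ) * Real.log 4 ≤ ε / 6 * Real.log N + B * Real.log 4 := by
      have h4 : (w : ℝ) ≤ Real.log N / Real.log B + B := by
        rw [← sub_le_iff_le_add, le_div_iff₀ hlogB0]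
        linarith
      have h5 : Real.log N / Real.log B * Real.log 4 ≤ ε / 6 * Real.log N := by
        have h6 : 6 * Real.log 4 ≤ ε * Real.log B := by
          rw [div_le_iff₀ hε] at hlogB
          linarith
        rw [div_mul_eq_mul_div, div_le_iff₀ hlogB0]
        nlinarith
      calc (w : ℝ) * Real.log 4 ≤ (Real.log N / Real.log B + B) * Real.log 4 := by gcongr
        _ ≤ _ := by linarith
    calc Real.log (Real.sqrt 10 * (1 + w * 2 ^ (w - 1) / 2))
        ≤ (2 + 2 * w : ℝ) * Real.log 4 := h1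
      _ ≤ 2 * Real.log 4 + 2 * (ε / 6 * Real.log N + B * Real.log 4) := by linarith
      _ ≤ ε * Real.log N := by
        have : 0 ≤ ε * Real.log N := by positivity
        linarith

end Pool.Agent.U3.NA
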