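import Pool.Agent.U3.NA.Count

/-!
An upper bound for the complexity in terms of the norm of a shortest vector.
-/

set_option autoImplicit false

namespace Pool.Agent.U3.NA

open Finset
open Pool.Agent.W907.NAdic

/-- If no prime divisor of `N` divides `g` then `g` is prime to `N`. -/
theorem isCoprime_of_primes {N : ℕ} {g : ℤ} (hN : N ≠ 0)
    (h : ∀ p ∈ N.primeFactors, ¬ (p : ℤ) ∣ g) : IsCoprime g (N : ℤ) := by
  rw [Int.isCoprime_iff_gcd_eq_one, Int.gcd_eq_natAbs, Int.natAbs_natCast]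
  apply Nat.coprime_of_dvd
  intro p hp h1 h2
  exact h p (Nat.mem_primeFactors.2 ⟨hp, h2, hN⟩) (Int.natCast_dvd.2 h1)

theorem mc_mul_le {N : ℕ} (hN : 2 ≤ N) (n : ℕ) (V : ℤ) (d : ℕ) (h : Sh (N ^ n) V d) :
    2 * (mc N n V * d) ≤ (2 + N.primeFactors.card * 2 ^ (N.primeFactors.card - 1)) * N ^ n := by
  classical
  set J := N.primeFactors.card * 2 ^ (N.primeFactors.card - 1) with hJ
  set q := N ^ n with hq
  have hqc : (q : ℤ) = (N : ℤ) ^ n := by rw [hq]; push_cast; ring
  obtain ⟨u1, g1, t, hne, hlat, hnm, hsm, hcop⟩ := h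
  by_cases hgood : IsCoprime g1 (N : ℤ)
  · have h1 : Cd N n V u1 g1 := ⟨hgood, by rw [← hqc]; exact ⟨t, hlat⟩⟩
    have h2 := mc_le h1
    rw [hnm] at h2
    have h3 : mc N n V * d ≤ d * d := Nat.mul_le_mul_right _ h2
    nlinarith
  -- the bad primes
  have hbad : ∃ p0 ∈ N.primeFactors, (p0 : ℤ) ∣ g1 := by
    by_contra hc
    push Not at hc
    exact hgood (isCoprime_of_primes (by omega) hc)
  obtain ⟨p0, hp0, hp0g⟩ := hbad
  set S := N.primeFactors.filter fun p : ℕ => ¬ (p : ℤ) ∣ g1 with hS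
  have hSp : ∀ p ∈ S, p.Prime := fun p hp => Nat.prime_of_mem_primeFactors (mem_filter.1 hp).1
  have hScard : S.card + 1 ≤ N.primeFactors.card := by
    have h1 : S ⊆ N.primeFactors.erase p0 := by
      intro p hp
      rw [hS, mem_filter] at hp
      refine mem_erase.2 ⟨?_, hp.1⟩
      rintro rfl
      exact hp.2 hp0g
    have h2 := Finset.card_le_card h1
    rw [Finset.card_erase_of_mem hp0] at h2
    have h3 : 0 < N.primeFactors.card := Finset.card_pos.2 ⟨p0, hp0⟩
    omega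
  have hSJ : (S.card + 1) * 2 ^ S.card ≤ J :=
    Nat.mul_le_mul hScard (Nat.pow_le_pow_right (by norm_num) (by omega))
  obtain ⟨x, y, hxy⟩ := hcop
  -- the second vector
  set uy : ℤ := -y * V - q * x with huy
  set gy : ℤ := -y with hgy
  have hdet : u1 * gy - g1 * uy = q := by
    have hu1 : u1 = g1 * V - q * t := by linarith
    rw [hu1, huy, hgy]
    linear_combination (q : ℤ) * hxy
  have hmem : ∀ k : ℤ, (q : ℤ) ∣ (gy + k * g1) * V - (uy + k * u1) := by
    intro k
    refine ⟨x + k * t, ?_⟩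
    rw [huy, hgy]
    linear_combination k * hlat
  -- inverses of `g1`
  have hinv : ∀ p : ℕ, ∃ z : ℤ, p ∈ S → (p : ℤ) ∣ g1 * z - 1 := by
    intro p
    by_cases hp : p ∈ S
    · have h1 : ¬ (p : ℤ) ∣ g1 := (mem_filter.1 hp).2
      have h2 : IsCoprime (p : ℤ) g1 :=
        (Prime.coprime_iff_not_dvd (Nat.prime_iff_prime_int.1 (hSp p hp))).2 h1
      obtain ⟨a, b, hab⟩ := h2
      exact ⟨b, fun _ => ⟨-a, by linear_combination hab⟩⟩
    · exact ⟨0, fun h => absurd h hp⟩
  choose z hz using hinv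
  -- admissible translates
  have hadm : ∀ k : ℤ, (∀ p ∈ S, ¬ (p : ℤ) ∣ k - -gy * z p) →
      IsCoprime (gy + k * g1) (N : ℤ) := by
    intro k hk
    apply isCoprime_of_primes (by omega)
    intro p hp hdvd
    by_cases hpg : (p : ℤ) ∣ g1
    · have h1 : (p : ℤ) ∣ gy := by
        have := dvd_sub hdvd (Dvd.dvd.mul_left hpg k)
        rwa [add_sub_cancel_right] at this
      have h2 : (p : ℤ) ∣ y := by
        rw [hgy] at h1
        exact (dvd_neg.1 h1)
      have h3 : (p : ℤ) ∣ 1 := by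
        rw [← hxy]
        exact dvd_add (Dvd.dvd.mul_left hpg x) (Dvd.dvd.mul_right h2 t)
      exact (Nat.prime_iff_prime_int.1 (Nat.prime_of_mem_primeFactors hp)).not_dvd_one h3
    · have hpS : p ∈ S := by rw [hS, mem_filter]; exact ⟨hp, hpg⟩
      apply hk p hpS
      have h1 := dvd_sub (Dvd.dvd.mul_left hdvd (z p)) (Dvd.dvd.mul_right (hz p hpS) k)
      rwa [show z p * (gy + k * g1) - (g1 * z p - 1) * k = k - -gy * z p by ring] at h1
  have hdZ : (d : ℤ) ^ 2 ≤ q := by exact_mod_cast hsm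
  have hnmZ : (d : ℤ) = max |u1| |g1| := by
    rw [← hnm, nm, Nat.cast_max, Int.natCast_natAbs, Int.natCast_natAbs]
  have hd0 : (0 : ℤ) ≤ d := by positivity
  have hJ0 : (0 : ℤ) ≤ J := by positivity
  have hfin : ∀ k : ℤ, (∀ p ∈ S, ¬ (p : ℤ) ∣ k - -gy * z p) →
      2 * (|uy + k * u1| * d) ≤ (2 + J) * q → 2 * (|gy + k * g1| * d) ≤ (2 + J) * q →
      2 * (mc N n V * d) ≤ (2 + J) * q := by
    intro k hk h1 h2
    have hcd : Cd N n V (uy + k * u1) (gy + k * g1) := ⟨hadm k hk, by rw [← hqc]; exact hmem k⟩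
    have h3 := Nat.mul_le_mul_left 2 (Nat.mul_le_mul_right d (mc_le hcd))
    refine h3.trans ?_
    have h4 : (2 : ℤ) * (nm (uy + k * u1) (gy + k * g1) * d) ≤ (2 + J) * q := by
      have : (nm (uy + k * u1) (gy + k * g1) : ℤ) = max |uy + k * u1| |gy + k * g1| := by
        rw [nm, Nat.cast_max, Int.natCast_natAbs, Int.natCast_natAbs]
      rw [this]
      rcases max_choice |uy + k * u1| |gy + k * g1| with h | h <;> rw [h] <;> assumption
    exact_mod_cast h4
  -- the key estimate: `|B| = d` is the large coordinate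
  have key : ∀ A B A' B' : ℤ, |A| ≤ d → |B| = d → 2 * |B'| ≤ d * J →
      |A * B' - B * A'| = q →
      2 * (|A'| * d) ≤ (2 + J) * q ∧ 2 * (|B'| * d) ≤ (2 + J) * q := by
    intro A B A' B' hA hB hB' hAB
    have hq0 : (0 : ℤ) ≤ q := by positivity
    have hB2 : 2 * (|B'| * d) ≤ J * q := by nlinarith [abs_nonneg B']
    constructor
    · have h2 : |B * A'| ≤ |A * B'| + |A * B' - B * A'| := by
        have h3 := abs_sub_abs_le_abs_sub (B * A') (A * B')
        rw [abs_sub_comm] at h3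
        linarith
      rw [abs_mul, abs_mul, hAB, hB] at h2
      have h3 : |A| * |B'| ≤ d * |B'| := mul_le_mul_of_nonneg_right hA (abs_nonneg _)
      nlinarith
    · nlinarith
  have hqabs : |(q : ℤ)| = q := abs_of_nonneg (by positivity)
  rcases le_total |u1| |g1| with hc | hc
  · have hD1 : (d : ℤ) = |g1| := by rw [hnmZ]; exact max_eq_right hc
    have hg1 : g1 ≠ 0 := by
      rintro rfl
      rw [abs_zero] at hc
      exact hne ⟨abs_eq_zero.1 (le_antisymm hc (abs_nonneg _)), rfl⟩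
    obtain ⟨k, hk1, hk2⟩ := exists_translate S hSp (fun p => -gy * z p) J hSJ gy g1 hg1
    obtain ⟨h3, h4⟩ := key u1 g1 (uy + k * u1) (gy + k * g1) (by rw [hD1]; exact hc)
      hD1.symm (by rw [hD1]; exact hk2) (by
        rw [show u1 * (gy + k * g1) - g1 * (uy + k * u1) = u1 * gy - g1 * uy by ring, hdet, hqabs])
    exact hfin k hk1 h3 h4
  · have hD1 : (d : ℤ) = |u1| := by rw [hnmZ]; exact max_eq_left hc
    have hu1 : u1 ≠ 0 := by
      rintro rfl
      rw [abs_zero] at hc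
      exact hne ⟨rfl, abs_eq_zero.1 (le_antisymm hc (abs_nonneg _))⟩
    obtain ⟨k, hk1, hk2⟩ := exists_translate S hSp (fun p => -gy * z p) J hSJ uy u1 hu1
    obtain ⟨h3, h4⟩ := key g1 u1 (gy + k * g1) (uy + k * u1) (by rw [hD1]; exact hc)
      hD1.symm (by rw [hD1]; exact hk2) (by
        rw [show g1 * (uy + k * u1) - u1 * (gy + k * g1) = -(u1 * gy - g1 * uy) by ring, hdet,
          abs_neg, hqabs])
    exact hfin k hk1 h4 h3

end Pool.Agent.U3.NA
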